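import Mathlib

/-!
# Day's doubling of an interval

General facts: the doubling of an interval of a lattice is a lattice, it is semidistributive if
the lattice is.
-/

namespace Pool.Agent.R578.Dim

open Classical

/-- Day's doubling of the interval `[a,b]` of a poset: every element of the interval is
replaced by two copies. Elements outside the interval carry the dummy value `false`. -/
def Doubling (L : Type) [PartialOrder L] (a b : L) : Type :=
  {p : L × Bool // p.2 = true → a ≤ p.1 ∧ p.1 ≤ b}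

instance (L : Type) [PartialOrder L] (a b : L) : PartialOrder (Doubling L a b) where
  le p q := p.1.1 ≤ q.1.1 ∧ (a ≤ p.1.1 → q.1.1 ≤ b → p.1.2 ≤ q.1.2)
  le_refl p := ⟨le_refl _, fun _ _ => le_refl _⟩
  le_trans p q r h1 h2 := by
    refine ⟨h1.1.trans h2.1, fun ha hb => ?_⟩
    exact (h1.2 ha (h2.1.trans hb)).trans (h2.2 (ha.trans h1.1) hb)
  le_antisymm p q h1 h2 := by
    have h : p.1.1 = q.1.1 := le_antisymm h1.1 h2.1
    have h' : p.1.2 = q.1.2 := by
      by_cases hp : a ≤ p.1.1 ∧ q.1.1 ≤ b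
      · exact le_antisymm (h1.2 hp.1 hp.2) (h2.2 (h ▸ hp.1) (h ▸ hp.2))
      · have e1 : p.1.2 = false := by
          by_contra hc
          have := p.2 (by simpa using hc)
          exact hp ⟨this.1, h ▸ this.2⟩
        have e2 : q.1.2 = false := by
          by_contra hc
          have := q.2 (by simpa using hc)
          exact hp ⟨h ▸ this.1, this.2⟩
        rw [e1, e2]
    exact Subtype.ext (Prod.ext h h')

variable {L : Type}

section PO
variable [PartialOrder L] {a b : L}

theorem dle_iff (p q : Doubling L a b) :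
    p ≤ q ↔ p.1.1 ≤ q.1.1 ∧ (a ≤ p.1.1 → q.1.1 ≤ b → p.1.2 ≤ q.1.2) := Iff.rfl

/-- `p` is not below the new meet-irreducible `(b,0)`. -/
def hi (p : Doubling L a b) : Prop := p.1.2 = true ∨ ¬ p.1.1 ≤ b

/-- `p` is above the new join-irreducible `(a,1)`. -/
def lo (p : Doubling L a b) : Prop := a ≤ p.1.1 ∧ (p.1.2 = true ∨ ¬ p.1.1 ≤ b)

theorem le_iff_hi (p q : Doubling L a b) : p ≤ q ↔ p.1.1 ≤ q.1.1 ∧ (hi p → hi q) := by
  rw [dle_iff]
  constructor
  · rintro ⟨h, h2⟩
    refine ⟨h, ?_⟩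
    rintro (h3 | h3)
    · by_cases hb : q.1.1 ≤ b
      · left
        have := h2 (p.2 h3).1 hb
        rw [h3] at this
        exact this rfl
      · right; exact hb
    · right
      exact fun h4 => h3 (h.trans h4)
  · rintro ⟨h, h2⟩
    refine ⟨h, fun ha hb => ?_⟩
    by_cases h3 : p.1.2 = true
    · rcases h2 (Or.inl h3) with h4 | h4
      · rw [h4]; exact Bool.le_true _
      · exact absurd hb h4
    · have : p.1.2 = false := by simpa using h3
      rw [this]; exact Bool.false_le _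

theorem le_iff_lo (p q : Doubling L a b) : p ≤ q ↔ p.1.1 ≤ q.1.1 ∧ (lo p → lo q) := by
  rw [le_iff_hi]
  constructor
  · rintro ⟨h, h2⟩
    exact ⟨h, fun h3 => ⟨h3.1.trans h, h2 h3.2⟩⟩
  · rintro ⟨h, h2⟩
    refine ⟨h, ?_⟩
    rintro (h3 | h3)
    · exact (h2 ⟨(p.2 h3).1, Or.inl h3⟩).2
    · right; exact fun h4 => h3 (h.trans h4)

theorem ext_hi {p q : Doubling L a b} (h : p.1.1 = q.1.1) (h2 : hi p ↔ hi q) : p = q :=
  le_antisymm ((le_iff_hi _ _).2 ⟨h.le, h2.1⟩) ((le_iff_hi _ _).2 ⟨h.ge, h2.2⟩)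

theorem ext_lo {p q : Doubling L a b} (h : p.1.1 = q.1.1) (h2 : lo p ↔ lo q) : p = q :=
  le_antisymm ((le_iff_lo _ _).2 ⟨h.le, h2.1⟩) ((le_iff_lo _ _).2 ⟨h.ge, h2.2⟩)

end PO

section Lat
variable [Lattice L] {a b : L}

/-- join in the doubling -/
noncomputable def dsup (p q : Doubling L a b) : Doubling L a b :=
  ⟨(p.1.1 ⊔ q.1.1, decide ((hi p ∨ hi q) ∧ a ≤ p.1.1 ⊔ q.1.1 ∧ p.1.1 ⊔ q.1.1 ≤ b)), by
    intro h
    exact (of_decide_eq_true h).2⟩

/-- meet in the doubling -/
noncomputable def dinf (p q : Doubling L a b) : Doubling L a b :=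
  ⟨(p.1.1 ⊓ q.1.1, decide ((lo p ∧ lo q) ∧ a ≤ p.1.1 ⊓ q.1.1 ∧ p.1.1 ⊓ q.1.1 ≤ b)), by
    intro h
    exact (of_decide_eq_true h).2⟩

theorem hi_dsup (p q : Doubling L a b) : hi (dsup p q) ↔ hi p ∨ hi q := by
  unfold hi dsup
  simp only [decide_eq_true_eq]
  constructor
  · rintro (h | h)
    · exact h.1
    · by_contra hc
      push_neg at hc
      exact h (sup_le hc.1.2 hc.2.2)
  · intro h
    by_cases hb : p.1.1 ⊔ q.1.1 ≤ b
    · left
      refine ⟨h, ?_, hb⟩
      rcases h with (h | h) | (h | h)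
      · exact (p.2 h).1.trans le_sup_left
      · exact absurd (le_sup_left.trans hb) h
      · exact (q.2 h).1.trans le_sup_right
      · exact absurd (le_sup_right.trans hb) h
    · right; exact hb

theorem lo_dinf (p q : Doubling L a b) : lo (dinf p q) ↔ lo p ∧ lo q := by
  constructor
  · rintro ⟨h1, h2⟩
    have h1' : a ≤ p.1.1 ⊓ q.1.1 := h1
    have h2' : decide ((lo p ∧ lo q) ∧ a ≤ p.1.1 ⊓ q.1.1 ∧ p.1.1 ⊓ q.1.1 ≤ b) = true ∨
      ¬ p.1.1 ⊓ q.1.1 ≤ b := h2
    rcases h2' with h2' | h2'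
    · exact (of_decide_eq_true h2').1
    · exact ⟨⟨h1'.trans inf_le_left, Or.inr fun h => h2' (inf_le_left.trans h)⟩,
        ⟨h1'.trans inf_le_right, Or.inr fun h => h2' (inf_le_right.trans h)⟩⟩
  · rintro ⟨h1, h2⟩
    have h3 : a ≤ p.1.1 ⊓ q.1.1 := le_inf h1.1 h2.1
    refine ⟨h3, ?_⟩
    by_cases hb : p.1.1 ⊓ q.1.1 ≤ b
    · left
      exact decide_eq_true ⟨⟨h1, h2⟩, h3, hb⟩
    · right; exact hb

noncomputable instance : Lattice (Doubling L a b) where
  sup := dsup
  inf := dinf
  le_sup_left p q := (le_iff_hi _ _).2 ⟨le_sup_left, fun h => (hi_dsup p q).2 (Or.inl h)⟩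
  le_sup_right p q := (le_iff_hi _ _).2 ⟨le_sup_right, fun h => (hi_dsup p q).2 (Or.inr h)⟩
  sup_le p q r h1 h2 := by
    rw [le_iff_hi] at h1 h2 ⊢
    exact ⟨sup_le h1.1 h2.1, fun h => ((hi_dsup p q).1 h).elim h1.2 h2.2⟩
  inf_le_left p q := (le_iff_lo _ _).2 ⟨inf_le_left, fun h => ((lo_dinf p q).1 h).1⟩
  inf_le_right p q := (le_iff_lo _ _).2 ⟨inf_le_right, fun h => ((lo_dinf p q).1 h).2⟩
  le_inf p q r h1 h2 := by
    rw [le_iff_lo] at h1 h2 ⊢
    exact ⟨le_inf h1.1 h2.1, fun h => (lo_dinf q r).2 ⟨h1.2 h, h2.2 h⟩⟩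

theorem fst_sup (p q : Doubling L a b) : (p ⊔ q).1.1 = p.1.1 ⊔ q.1.1 := rfl
theorem fst_inf (p q : Doubling L a b) : (p ⊓ q).1.1 = p.1.1 ⊓ q.1.1 := rfl
theorem hi_sup (p q : Doubling L a b) : hi (p ⊔ q) ↔ hi p ∨ hi q := hi_dsup p q
theorem lo_inf (p q : Doubling L a b) : lo (p ⊓ q) ↔ lo p ∧ lo q := lo_dinf p q

end Lat

/-- Semidistributive lattices. -/
def Semidistributive (L : Type) [Lattice L] : Prop :=
  (∀ x y z : L, x ⊔ y = x ⊔ z → x ⊔ y = x ⊔ (y ⊓ z)) ∧
  (∀ x y z : L, x ⊓ y = x ⊓ z → x ⊓ y = x ⊓ (y ⊔ z))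

theorem semidistributive_doubling [Lattice L] {a b : L} (h : Semidistributive L) :
    Semidistributive (Doubling L a b) := by
  constructor
  · intro x y z hxyz
    have h1 : x.1.1 ⊔ y.1.1 = x.1.1 ⊔ z.1.1 := by
      rw [← fst_sup, ← fst_sup, hxyz]
    have h2 : hi x ∨ hi y ↔ hi x ∨ hi z := by
      rw [← hi_sup, ← hi_sup, hxyz]
    have h3 := h.1 _ _ _ h1
    refine ext_hi ?_ ?_
    · rw [fst_sup, fst_sup, fst_inf, h3]
    · rw [hi_sup, hi_sup]
      by_cases hx : hi x
      · simp [hx]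
      · simp only [hx, false_or] at h2 ⊢
        constructor
        · intro hy
          have hz := h2.1 hy
          by_contra hc
          -- (y ⊓ z).1 ≤ b
          have hyz : y.1.1 ⊓ z.1.1 ≤ b := by
            by_contra hc2
            exact hc (Or.inr hc2)
          have hxb : x.1.1 ≤ b := by
            by_contra hc2
            exact hx (Or.inr hc2)
          have hw : x.1.1 ⊔ y.1.1 ≤ b := by
            rw [h3]; exact sup_le hxb hyz
          have hyb : y.1.1 ≤ b := le_sup_right.trans hw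
          have hzb : z.1.1 ≤ b := by
            rw [h1] at hw; exact le_sup_right.trans hw
          have hy' : y.1.2 = true := hy.resolve_right (fun h => h hyb)
          have hz' : z.1.2 = true := hz.resolve_right (fun h => h hzb)
          have l1 : lo y := ⟨(y.2 hy').1, Or.inl hy'⟩
          have l2 : lo z := ⟨(z.2 hz').1, Or.inl hz'⟩
          exact hc ((lo_inf y z).2 ⟨l1, l2⟩).2
        · intro h4
          exact ((le_iff_hi _ _).1 (inf_le_left : y ⊓ z ≤ y)).2 h4
  · intro x y z hxyz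
    have h1 : x.1.1 ⊓ y.1.1 = x.1.1 ⊓ z.1.1 := by
      rw [← fst_inf, ← fst_inf, hxyz]
    have h2 : lo x ∧ lo y ↔ lo x ∧ lo z := by
      rw [← lo_inf, ← lo_inf, hxyz]
    have h3 := h.2 _ _ _ h1
    refine ext_lo ?_ ?_
    · rw [fst_inf, fst_inf, fst_sup, h3]
    · rw [lo_inf, lo_inf]
      by_cases hx : lo x
      · simp only [hx, true_and] at h2 ⊢
        constructor
        · intro h4
          exact ((le_iff_lo _ _).1 (le_sup_left : y ≤ y ⊔ z)).2 h4
        · intro h4
          by_contra hy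
          have hz : ¬ lo z := fun h => hy (h2.2 h)
          have hyz : a ≤ y.1.1 ⊔ z.1.1 := h4.1
          have hw : a ≤ x.1.1 ⊓ y.1.1 := by
            rw [h3]; exact le_inf hx.1 hyz
          have hya : a ≤ y.1.1 := hw.trans inf_le_right
          have hza : a ≤ z.1.1 := by
            rw [h1] at hw; exact hw.trans inf_le_right
          have hy' : ¬ hi y := fun h => hy ⟨hya, h⟩
          have hz' : ¬ hi z := fun h => hz ⟨hza, h⟩
          rcases (hi_sup y z).1 h4.2 with h5 | h5
          · exact hy' h5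
          · exact hz' h5
      · simp [hx]

/-- Transport of semidistributivity along an order isomorphism. -/
theorem Semidistributive.of_iso {L M : Type} [Lattice L] [Lattice M] (e : M ≃o L)
    (h : Semidistributive L) : Semidistributive M := by
  constructor
  · intro x y z hxyz
    apply e.injective
    rw [map_sup, map_sup, map_inf]
    exact h.1 _ _ _ (by rw [← map_sup, ← map_sup, hxyz])
  · intro x y z hxyz
    apply e.injective
    rw [map_inf, map_inf, map_sup]
    exact h.2 _ _ _ (by rw [← map_inf, ← map_inf, hxyz])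

/-- Posets obtained from a one-element poset by a finite sequence of doublings of nonempty
intervals (Day); these are the finite congruence uniform lattices. -/
inductive CongruenceUniform : (L : Type) → [PartialOrder L] → Prop
  | one (L : Type) [PartialOrder L] (x : L) (h : ∀ y : L, y = x) : CongruenceUniform L
  | double (L : Type) [PartialOrder L] (a b : L) (hab : a ≤ b) (h : CongruenceUniform L)
      (M : Type) [PartialOrder M] (e : M ≃o Doubling L a b) : CongruenceUniform M

end Pool.Agent.R578.Dim
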