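import Mathlib
import Pool.Agent.R578.Dim.Dbl

/-!
# Representation of iterated doublings by bit masks
-/

namespace Pool.Agent.R578.Dim

open Classical

/-- `l` is the list of codes of the elements of `L`; the order is inclusion of bit masks. -/
structure Rep (L : Type) [PartialOrder L] (l : List ℕ) (k : ℕ) where
  c : L → ℕ
  mem : ∀ x, c x ∈ l
  surj : ∀ n ∈ l, ∃ x, c x = n
  le : ∀ x y, x ≤ y ↔ Nat.land (c x) (c y) = c x
  lt : ∀ x, c x < 2 ^ k

theorem land_eq_iff (m n : ℕ) : Nat.land m n = m ↔ ∀ j, m.testBit j = true → n.testBit j = true := by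
  constructor
  · intro h j hj
    have h2 : (m &&& n).testBit j = true := by
      have : (m &&& n) = m := h
      rw [this]; exact hj
    rw [Nat.testBit_and] at h2
    simp only [Bool.and_eq_true] at h2
    exact h2.2
  · intro h
    have : (m &&& n) = m := by
      apply Nat.eq_of_testBit_eq
      intro j
      rw [Nat.testBit_and]
      cases hm : m.testBit j
      · simp
      · simp [h j hm]
    exact this

/-- The codes of the doubling. -/
def stepL (k a b : ℕ) (l : List ℕ) : List ℕ :=
  (l.filter (fun x => Nat.beq (Nat.land x b) x)) ++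
    ((l.filter (fun x => (!(Nat.beq (Nat.land x b) x)) || Nat.beq (Nat.land a x) a)).map
      (fun x => Nat.lor x (Nat.pow 2 k)))

theorem lor_testBit (m k j : ℕ) : (Nat.lor m (Nat.pow 2 k)).testBit j = (m.testBit j || decide (k = j)) := by
  have : (Nat.lor m (Nat.pow 2 k)) = (m ||| 2 ^ k) := rfl
  rw [this, Nat.testBit_or, Nat.testBit_two_pow]

theorem testBit_ge {m k : ℕ} (h : m < 2 ^ k) : m.testBit k = false := Nat.testBit_lt_two_pow h

theorem lor_lt {m k : ℕ} (h : m < 2 ^ k) : Nat.lor m (Nat.pow 2 k) < 2 ^ (k + 1) := by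
  have h1 : (m ||| 2 ^ k) < 2 ^ (k + 1) := by
    apply Nat.or_lt_two_pow
    · exact h.trans (Nat.pow_lt_pow_right (by norm_num) (by omega))
    · exact Nat.pow_lt_pow_right (by norm_num) (by omega)
  exact h1

theorem lor_inj {m n k : ℕ} (hm : m < 2 ^ k) (hn : n < 2 ^ k) : Nat.lor m (Nat.pow 2 k) = Nat.lor n (Nat.pow 2 k) → m = n := by
  intro h
  apply Nat.eq_of_testBit_eq
  intro j
  by_cases hj : k = j
  · subst hj
    rw [testBit_ge hm, testBit_ge hn]
  · have := congrArg (fun z => Nat.testBit z j) h
    simp only [lor_testBit, hj, decide_false, Bool.or_false] at this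
    exact this

variable {L : Type} [PartialOrder L]

theorem hi_of (a b : L) (x : L) (h : ¬ x ≤ b ∨ a ≤ x) :
    ∃ p : Doubling L a b, p.1.1 = x ∧ hi p := by
  by_cases hb : x ≤ b
  · have ha : a ≤ x := h.resolve_left (fun h => h hb)
    exact ⟨⟨(x, true), fun _ => ⟨ha, hb⟩⟩, rfl, Or.inl rfl⟩
  · exact ⟨⟨(x, false), fun h => by simp at h⟩, rfl, Or.inr hb⟩

theorem not_hi_of (a b : L) (x : L) (h : x ≤ b) :
    ∃ p : Doubling L a b, p.1.1 = x ∧ ¬ hi p := by
  refine ⟨⟨(x, false), fun h => by simp at h⟩, rfl, ?_⟩
  rintro (h2 | h2)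
  · simp at h2
  · exact h2 h

theorem hi_cond {a b : L} (p : Doubling L a b) (h : hi p) : ¬ p.1.1 ≤ b ∨ a ≤ p.1.1 := by
  rcases h with h | h
  · exact Or.inr (p.2 h).1
  · exact Or.inl h

theorem not_hi_cond {a b : L} (p : Doubling L a b) (h : ¬ hi p) : p.1.1 ≤ b := by
  by_contra hc
  exact h (Or.inr hc)

/-- The code of an element of the doubling. -/
noncomputable def dcode {l : List ℕ} {k : ℕ} (R : Rep L l k) {A B : L} (p : Doubling L A B) : ℕ :=
  if hi p then Nat.lor (R.c p.1.1) (Nat.pow 2 k) else R.c p.1.1

noncomputable def Rep.step {l : List ℕ} {k : ℕ} (R : Rep L l k) (A B : L) :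
    Rep (Doubling L A B) (stepL k (R.c A) (R.c B) l) (k + 1) where
  c := dcode R
  mem p := by
    unfold stepL dcode
    rw [List.mem_append]
    split_ifs with h
    · right
      rw [List.mem_map]
      refine ⟨R.c p.1.1, ?_, rfl⟩
      rw [List.mem_filter]
      refine ⟨R.mem _, ?_⟩
      rw [Bool.or_eq_true, Bool.not_eq_true', Nat.beq_eq, ← R.le]
      rcases hi_cond p h with h | h
      · left
        rw [← Bool.not_eq_true, Nat.beq_eq, ← R.le]
        exact h
      · right; exact h
    · left
      rw [List.mem_filter]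
      refine ⟨R.mem _, ?_⟩
      rw [Nat.beq_eq, ← R.le]
      exact not_hi_cond p h
  surj n hn := by
    unfold stepL at hn
    rw [List.mem_append] at hn
    rcases hn with hn | hn
    · rw [List.mem_filter, Nat.beq_eq] at hn
      obtain ⟨x, rfl⟩ := R.surj n hn.1
      obtain ⟨p, hp, hp2⟩ := not_hi_of A B x ((R.le _ _).2 hn.2)
      refine ⟨p, ?_⟩
      unfold dcode
      rw [if_neg hp2, hp]
    · rw [List.mem_map] at hn
      obtain ⟨m, hm, rfl⟩ := hn
      rw [List.mem_filter, Bool.or_eq_true, Bool.not_eq_true', Nat.beq_eq, ← Bool.not_eq_true,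
        Nat.beq_eq] at hm
      obtain ⟨x, rfl⟩ := R.surj m hm.1
      obtain ⟨p, hp, hp2⟩ := hi_of A B x (by
        rcases hm.2 with h | h
        · left; rw [R.le]; exact h
        · right; rw [R.le]; exact h)
      refine ⟨p, ?_⟩
      unfold dcode
      rw [if_pos hp2, hp]
  le p q := by
    rw [le_iff_hi, R.le, land_eq_iff, land_eq_iff]
    unfold dcode
    have tp := testBit_ge (R.lt p.1.1)
    have tq := testBit_ge (R.lt q.1.1)
    by_cases hp : hi p <;> by_cases hq : hi q
    · simp only [hp, hq, if_true, lor_testBit, imp_true_iff, and_true]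
      constructor
      · intro h j
        simp only [Bool.or_eq_true]
        rintro (h2 | h2)
        · left; exact h j h2
        · right; exact h2
      · intro h j h2
        have := h j (by rw [h2]; rfl)
        simp only [Bool.or_eq_true, decide_eq_true_eq] at this
        rcases this with h3 | h3
        · exact h3
        · subst h3; rw [tp] at h2; simp at h2
    · simp only [hp, hq, if_true, if_false, lor_testBit, imp_false, not_true, and_false, false_iff]
      intro h
      have := h k (by simp)
      rw [tq] at this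
      simp at this
    · simp only [hp, hq, if_true, if_false, lor_testBit, imp_true_iff, and_true]
      constructor
      · intro h j h2
        rw [h j h2]; rfl
      · intro h j h2
        have := h j h2
        simp only [Bool.or_eq_true, decide_eq_true_eq] at this
        rcases this with h3 | h3
        · exact h3
        · subst h3; rw [tp] at h2; simp at h2
    · simp only [hp, hq, if_false]
      tauto
  lt p := by
    unfold dcode
    split_ifs with h
    · exact lor_lt (R.lt _)
    · exact (R.lt _).trans (Nat.pow_lt_pow_right (by norm_num) (by omega))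

/-- Iterate the doubling step, checking that the interval ends are elements. -/
def run : List (ℕ × ℕ) → ℕ → List ℕ → Option (List ℕ)
  | [], _, l => some l
  | (a, b) :: t, k, l =>
    if ((l.any (fun x => Nat.beq x a)) && (l.any (fun x => Nat.beq x b)) &&
      Nat.beq (Nat.land a b) a) = true then run t (k + 1) (stepL k a b l) else none

theorem run_spec (st : List (ℕ × ℕ)) : ∀ (k : ℕ) (l l' : List ℕ), run st k l = some l' →
    ∀ (L : Type) (_ : Lattice L), Semidistributive L → CongruenceUniform L → Finite L →
      Nonempty (Rep L l k) →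
    ∃ (M : Type) (_ : Lattice M), Semidistributive M ∧ CongruenceUniform M ∧ Finite M ∧
      Nonempty (Rep M l' (k + st.length)) := by
  induction st with
  | nil =>
    intro k l l' h L _ h1 h2 h3 h4
    simp only [run, Option.some.injEq] at h
    subst h
    exact ⟨L, _, h1, h2, h3, h4⟩
  | cons s t ih =>
    obtain ⟨a, b⟩ := s
    intro k l l' h L _ h1 h2 h3 h4
    unfold run at h
    split_ifs at h with hc
    simp only [Bool.and_eq_true, List.any_eq_true, Nat.beq_eq] at hc
    obtain ⟨⟨⟨a', ha, rfl⟩, ⟨b', hb, rfl⟩⟩, hab⟩ := hc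
    obtain ⟨R⟩ := h4
    obtain ⟨A, rfl⟩ := R.surj _ ha
    obtain ⟨B, rfl⟩ := R.surj _ hb
    have hAB : A ≤ B := (R.le _ _).2 hab
    have hfin : Finite (Doubling L A B) := by
      unfold Doubling
      infer_instance
    have := ih (k + 1) _ l' h (Doubling L A B) inferInstance (semidistributive_doubling h1)
      (CongruenceUniform.double L A B hAB h2 _ (OrderIso.refl _)) hfin ⟨R.step A B⟩
    rw [List.length_cons, show k + (t.length + 1) = k + 1 + t.length by ring]
    exact this

theorem run_start (st : List (ℕ × ℕ)) (l' : List ℕ) (h : run st 0 [0] = some l') :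
    ∃ (M : Type) (_ : Lattice M), Semidistributive M ∧ CongruenceUniform M ∧ Finite M ∧
      Nonempty (Rep M l' st.length) := by
  have := run_spec st 0 [0] l' h PUnit inferInstance
    ⟨fun _ _ _ _ => Subsingleton.elim _ _, fun _ _ _ _ => Subsingleton.elim _ _⟩
    (CongruenceUniform.one PUnit PUnit.unit (fun _ => Subsingleton.elim _ _)) inferInstance
    ⟨{ c := fun _ => 0, mem := fun _ => by simp,
       surj := fun n hn => ⟨PUnit.unit, by simp at hn; exact hn.symm⟩,
       le := fun x y => by simp [Subsingleton.elim x y],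
       lt := fun _ => by norm_num }⟩
  rwa [Nat.zero_add] at this

end Pool.Agent.R578.Dim
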