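import Mathlib
import Pool.Agent.R578.Dim.Rep

/-! # Checking Hasse regularity and non-colourability -/

namespace Pool.Agent.R578.Dim

/-- subset test -/
def sb (x y : ℕ) : Bool := Nat.beq (Nat.land x y) x

def okUp (E : List ℕ) (x : ℕ) (U : List ℕ) : Bool :=
  (U.all fun y => (E.any fun z => Nat.beq z y) && (sb x y && !(Nat.beq x y))) &&
  ((E.all fun z => !(sb x z) || (Nat.beq x z || U.any fun y => sb y z)) &&
  (U.all fun y => U.all fun z => (Nat.beq y z || !(sb y z))))

def okDown (E : List ℕ) (x : ℕ) (U : List ℕ) : Bool :=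
  (U.all fun y => (E.any fun z => Nat.beq z y) && (sb y x && !(Nat.beq y x))) &&
  ((E.all fun z => !(sb z x) || (Nat.beq z x || U.any fun y => sb z y)) &&
  (U.all fun y => U.all fun z => (Nat.beq y z || !(sb y z))))

def ndup : List ℕ → Bool
  | [] => true
  | x :: t => (t.all fun y => !(Nat.beq x y)) && ndup t

def okRow (E : List ℕ) (r : ℕ) (t : ℕ × List ℕ × List ℕ) : Bool :=
  okUp E t.1 t.2.1 && (okDown E t.1 t.2.2 && (ndup t.2.1 && (ndup t.2.2 &&
    Nat.beq (t.2.1.length + t.2.2.length) r)))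

/-- backtracking search: `true` means that there is no proper colouring with the colours `cs` -/
def noCol (cs : List ℕ) : List (List ℕ) → List ℕ → Bool
  | [], _ => false
  | B :: rest, cols =>
    cs.all fun c => (B.any fun b => Nat.beq (cols.getD b c.succ) c) || noCol cs rest (c :: cols)

def okPairs (E : List ℕ) (prs : List (ℕ × ℕ)) : Bool :=
  prs.all fun p => (E.any fun z => Nat.beq z p.1) && ((E.any fun z => Nat.beq z p.2) &&
    !(sb p.1 p.2))

def okConf (prs : List (ℕ × ℕ)) (back : List (List ℕ)) : Bool :=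
  (List.range back.length).all fun i => (back.getD i []).all fun b =>
    sb (prs.getD i (0, 0)).1 (prs.getD (i - 1 - b) (0, 0)).2 &&
    sb (prs.getD (i - 1 - b) (0, 0)).1 (prs.getD i (0, 0)).2

/-- every element has degree `r` in the Hasse diagram -/
def HasseRegular (L : Type) [PartialOrder L] (r : ℕ) : Prop :=
  ∀ x : L, {y : L | y ⋖ x}.ncard + {y : L | x ⋖ y}.ncard = r

/-- `n` linear orders whose intersection is the order of `L` -/
def Realizer (L : Type) [PartialOrder L] (n : ℕ) : Prop :=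
  ∃ f : Fin n → LinearOrder L, ∀ x y : L, x ≤ y ↔ ∀ i, (f i).le x y

/-- The obstruction to small dimension. -/
def Ob (L : Type) [PartialOrder L] (d : ℕ) : Prop :=
  ∃ (ι : Type) (J M : ι → L), (∀ i, ¬ J i ≤ M i) ∧
    ∀ n < d, ∀ f : ι → Fin n, ∃ i j, J i ≤ M j ∧ J j ≤ M i ∧ f i = f j

theorem Ob.le_of_realizer {L : Type} [PartialOrder L] {d n : ℕ} (h : Ob L d)
    (hr : Realizer L n) : d ≤ n := by
  by_contra hc
  push Not at hc
  obtain ⟨ι, J, M, hJ, hf⟩ := h
  obtain ⟨g, hg⟩ := hr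
  have h1 : ∀ i, ∃ k : Fin n, ¬ (g k).le (J i) (M i) := by
    intro i
    by_contra hcon
    push Not at hcon
    exact hJ i ((hg _ _).2 hcon)
  choose f hf2 using h1
  obtain ⟨i, j, h2, h3, h4⟩ := hf n hc f
  have a1 := hf2 i
  have a2 := hf2 j
  rw [← h4] at a2
  have b1 := (hg _ _).1 h2 (f i)
  have b2 := (hg _ _).1 h3 (f i)
  have c1 : (g (f i)).le (M i) (J i) := ((g (f i)).le_total _ _).resolve_left a1
  have c2 : (g (f i)).le (M j) (J j) := ((g (f i)).le_total _ _).resolve_left a2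
  -- J i ≤ M j ≤ J j ≤ M i
  exact a1 ((g (f i)).le_trans _ _ _ ((g (f i)).le_trans _ _ _ b1 c2) b2)

theorem ndup_spec (l : List ℕ) (h : ndup l = true) : l.Nodup := by
  induction l with
  | nil => exact List.nodup_nil
  | cons x t ih =>
    simp only [ndup, Bool.and_eq_true, List.all_eq_true, Bool.not_eq_true', ← Bool.not_eq_true,
      Nat.beq_eq] at h
    rw [List.nodup_cons]
    exact ⟨fun hx => h.1 x hx rfl, ih h.2⟩

section
variable {L : Type} [PartialOrder L] {l : List ℕ} {k : ℕ} (R : Rep L l k)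
include R

theorem Rep.inj {x y : L} (h : R.c x = R.c y) : x = y := by
  apply le_antisymm
  · rw [R.le, h, land_eq_iff]; exact fun _ h => h
  · rw [R.le, h, land_eq_iff]; exact fun _ h => h

theorem Rep.sb_iff (x y : L) : sb (R.c x) (R.c y) = true ↔ x ≤ y := by
  unfold sb
  rw [Nat.beq_eq, R.le]

theorem okUp_spec (x : L) (U : List ℕ) (h : okUp l (R.c x) U = true) (y : L) :
    x ⋖ y ↔ R.c y ∈ U := by
  unfold okUp at h
  simp only [Bool.and_eq_true, List.all_eq_true, List.any_eq_true, Nat.beq_eq, Bool.or_eq_true,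
    Bool.not_eq_true', ← Bool.not_eq_true] at h
  obtain ⟨h1, h2, h3⟩ := h
  have hU : ∀ n ∈ U, ∃ z : L, R.c z = n ∧ x < z := by
    intro n hn
    obtain ⟨⟨m, hm, rfl⟩, h5, h6⟩ := h1 n hn
    obtain ⟨z, rfl⟩ := R.surj _ hm
    rw [R.sb_iff] at h5
    exact ⟨z, rfl, lt_of_le_of_ne h5 (fun hh => h6 (congrArg R.c hh))⟩
  have hA : ∀ z : L, x < z → ∃ u : L, R.c u ∈ U ∧ x < u ∧ u ≤ z := by
    intro z hz
    rcases h2 (R.c z) (R.mem z) with h4 | h4 | ⟨n, hn, h4⟩
    · rw [R.sb_iff] at h4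
      exact absurd hz.le h4
    · exact absurd (R.inj h4) hz.ne
    · obtain ⟨u, rfl, hu⟩ := hU n hn
      exact ⟨u, hn, hu, (R.sb_iff _ _).1 h4⟩
  constructor
  · intro hc
    obtain ⟨u, hu, hxu, huy⟩ := hA y hc.lt
    rcases huy.lt_or_eq with h4 | h4
    · exact absurd h4 (hc.2 hxu)
    · rw [← h4]; exact hu
  · intro hy
    obtain ⟨z, hz, hxz⟩ := hU _ hy
    have := R.inj hz
    subst this
    refine ⟨hxz, fun w hxw hwz => ?_⟩
    obtain ⟨u, hu, _, huw⟩ := hA w hxw
    rcases h3 _ hu _ hy with h4 | h4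
    · have := R.inj h4
      subst this
      exact absurd (lt_of_le_of_lt huw hwz) (lt_irrefl _)
    · rw [R.sb_iff] at h4
      exact h4 (huw.trans hwz.le)

theorem okDown_spec (x : L) (U : List ℕ) (h : okDown l (R.c x) U = true) (y : L) :
    y ⋖ x ↔ R.c y ∈ U := by
  unfold okDown at h
  simp only [Bool.and_eq_true, List.all_eq_true, List.any_eq_true, Nat.beq_eq, Bool.or_eq_true,
    Bool.not_eq_true', ← Bool.not_eq_true] at h
  obtain ⟨h1, h2, h3⟩ := h
  have hU : ∀ n ∈ U, ∃ z : L, R.c z = n ∧ z < x := by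
    intro n hn
    obtain ⟨⟨m, hm, rfl⟩, h5, h6⟩ := h1 n hn
    obtain ⟨z, rfl⟩ := R.surj _ hm
    rw [R.sb_iff] at h5
    exact ⟨z, rfl, lt_of_le_of_ne h5 (fun hh => h6 (congrArg R.c hh))⟩
  have hA : ∀ z : L, z < x → ∃ u : L, R.c u ∈ U ∧ u < x ∧ z ≤ u := by
    intro z hz
    rcases h2 (R.c z) (R.mem z) with h4 | h4 | ⟨n, hn, h4⟩
    · rw [R.sb_iff] at h4
      exact absurd hz.le h4
    · exact absurd (R.inj h4) hz.ne
    · obtain ⟨u, rfl, hu⟩ := hU n hn
      exact ⟨u, hn, hu, (R.sb_iff _ _).1 h4⟩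
  constructor
  · intro hc
    obtain ⟨u, hu, hxu, huy⟩ := hA y hc.lt
    rcases huy.lt_or_eq with h4 | h4
    · exact absurd hxu (hc.2 h4)
    · rw [h4]; exact hu
  · intro hy
    obtain ⟨z, hz, hxz⟩ := hU _ hy
    have := R.inj hz
    subst this
    refine ⟨hxz, fun w hzw hwx => ?_⟩
    obtain ⟨u, hu, _, huw⟩ := hA w hwx
    rcases h3 _ hy _ hu with h4 | h4
    · have := R.inj h4
      subst this
      exact absurd (lt_of_le_of_lt huw hzw) (lt_irrefl _)
    · rw [R.sb_iff] at h4
      exact h4 (hzw.le.trans huw)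

theorem ncard_of_list (U : List ℕ) (hU : U.Nodup) (hsub : ∀ n ∈ U, n ∈ l) (S : Set L)
    (hS : ∀ y, y ∈ S ↔ R.c y ∈ U) : S.ncard = U.length := by
  have h1 : R.c '' S = (U.toFinset : Set ℕ) := by
    ext n
    simp only [Set.mem_image, List.coe_toFinset, Set.mem_ofPred_eq]
    constructor
    · rintro ⟨y, hy, rfl⟩
      exact (hS y).1 hy
    · intro hn
      obtain ⟨y, rfl⟩ := R.surj n (hsub n hn)
      exact ⟨y, (hS y).2 hn, rfl⟩
  rw [← Set.ncard_image_of_injective S (fun x y h => R.inj h), h1, Set.ncard_coe_finset,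
    List.toFinset_card_of_nodup hU]

theorem hasseRegular_of_table (r : ℕ) (tbl : List (ℕ × List ℕ × List ℕ))
    (h : (tbl.all fun t => okRow l r t) = true) (h2 : tbl.map (fun t => t.1) = l) :
    HasseRegular L r := by
  intro x
  have hx : R.c x ∈ tbl.map (fun t => t.1) := (congrArg (fun z => R.c x ∈ z) h2).mpr (R.mem x)
  rw [List.mem_map] at hx
  obtain ⟨t, ht, htx⟩ := hx
  rw [List.all_eq_true] at h
  have h3 := h t ht
  unfold okRow at h3
  simp only [Bool.and_eq_true, Nat.beq_eq] at h3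
  obtain ⟨h4, h5, h6, h7, h8⟩ := h3
  rw [htx] at h4 h5
  have hs1 : ∀ n ∈ t.2.1, n ∈ l := by
    intro n hn
    unfold okUp at h4
    simp only [Bool.and_eq_true, List.all_eq_true, List.any_eq_true, Nat.beq_eq] at h4
    obtain ⟨⟨m, hm, rfl⟩, _⟩ := h4.1 n hn
    exact hm
  have hs2 : ∀ n ∈ t.2.2, n ∈ l := by
    intro n hn
    unfold okDown at h5
    simp only [Bool.and_eq_true, List.all_eq_true, List.any_eq_true, Nat.beq_eq] at h5
    obtain ⟨⟨m, hm, rfl⟩, _⟩ := h5.1 n hn
    exact hm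
  rw [ncard_of_list R t.2.1 (ndup_spec _ h6) hs1 {y | x ⋖ y} (fun y => okUp_spec R x _ h4 y),
    ncard_of_list R t.2.2 (ndup_spec _ h7) hs2 {y | y ⋖ x} (fun y => okDown_spec R x _ h5 y)]
  omega

end

theorem noCol_spec (cs : List ℕ) (Bs : List (List ℕ)) : ∀ (cols : List ℕ), noCol cs Bs cols = true →
    ∀ f : ℕ → ℕ, (∀ i, f i ∈ cs) → (∀ b < cols.length, cols[b]? = some (f (cols.length - 1 - b))) →
    ∃ i < Bs.length, ∃ b ∈ Bs.getD i [], b < cols.length + i ∧
      f (cols.length + i) = f (cols.length + i - 1 - b) := by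
  induction Bs with
  | nil => intro cols h; simp [noCol] at h
  | cons B rest ih =>
    intro cols h f hf hc
    unfold noCol at h
    rw [List.all_eq_true] at h
    have h1 := h (f cols.length) (hf _)
    rw [Bool.or_eq_true, List.any_eq_true] at h1
    rcases h1 with ⟨b, hb, h2⟩ | h2
    · rw [Nat.beq_eq] at h2
      by_cases hbl : b < cols.length
      · refine ⟨0, by simp, b, by simpa using hb, by simpa using hbl, ?_⟩
        rw [List.getD_eq_getElem?_getD, hc b hbl] at h2
        simp only [Option.getD_some] at h2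
        rw [Nat.add_zero, h2]
      · rw [List.getD_eq_getElem?_getD, List.getElem?_eq_none (by omega)] at h2
        simp at h2
    · have := ih (f cols.length :: cols) h2 f hf (by
        intro b hb
        cases b with
        | zero => simp
        | succ b =>
          rw [List.length_cons] at hb
          rw [List.getElem?_cons_succ, hc b (by omega)]
          congr 2
          rw [List.length_cons]; omega)
      obtain ⟨i, hi, b, hb, h3, h4⟩ := this
      refine ⟨i + 1, by simpa using hi, b, by simpa using hb, ?_, ?_⟩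
      · rw [List.length_cons] at h3; omega
      · rw [List.length_cons] at h4
        rw [show cols.length + (i + 1) = cols.length + 1 + i by ring]
        exact h4

theorem ob_of_check {L : Type} [PartialOrder L] {l : List ℕ} {k : ℕ} (R : Rep L l k) (d : ℕ)
    (prs : List (ℕ × ℕ)) (back : List (List ℕ)) (hlen : back.length = prs.length)
    (h1 : okPairs l prs = true) (h2 : okConf prs back = true)
    (h3 : noCol (List.range d) back [] = true) : Ob L (d + 1) := by
  unfold okPairs at h1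
  simp only [List.all_eq_true, Bool.and_eq_true, List.any_eq_true, Nat.beq_eq,
    Bool.not_eq_true', ← Bool.not_eq_true] at h1
  have hp : ∀ i : Fin prs.length, ∃ J M : L, R.c J = prs[i].1 ∧ R.c M = prs[i].2 ∧ ¬ J ≤ M := by
    intro i
    obtain ⟨⟨j, hj, hj2⟩, ⟨m, hm, hm2⟩, hh⟩ := h1 prs[i] (List.getElem_mem _)
    obtain ⟨J, rfl⟩ := R.surj _ hj
    obtain ⟨M, rfl⟩ := R.surj _ hm
    refine ⟨J, M, hj2, hm2, ?_⟩
    rw [← hj2, ← hm2, R.sb_iff] at hh
    exact hh
  choose J M hJ hM hJM using hp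
  refine ⟨Fin prs.length, J, M, hJM, ?_⟩
  intro n hn f
  by_contra hcon
  push Not at hcon
  have hpos : 0 < prs.length ∨ prs.length = 0 := by omega
  rcases hpos with hpos | hpos
  swap
  · have : back = [] := by
      rw [← List.length_eq_zero_iff, hlen, hpos]
    rw [this] at h3
    simp [noCol] at h3
  have hn0 : 0 < n := lt_of_le_of_lt (Nat.zero_le _) (f ⟨0, hpos⟩).2
  obtain ⟨i, hi, b, hb, hb2, he⟩ := noCol_spec (List.range d) back [] h3
    (fun i => if h : i < prs.length then (f ⟨i, h⟩ : ℕ) else 0)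
    (by
      intro i
      rw [List.mem_range]
      split_ifs with h
      · exact lt_of_lt_of_le (f ⟨i, h⟩).2 (by omega)
      · omega)
    (by intro b hb; simp at hb)
  simp only [List.length_nil, Nat.zero_add] at hb2 he
  rw [hlen] at hi
  have hi' : i - 1 - b < prs.length := by omega
  rw [dif_pos hi, dif_pos hi'] at he
  unfold okConf at h2
  rw [List.all_eq_true] at h2
  have h4 := h2 i (by rw [List.mem_range, hlen]; exact hi)
  rw [List.all_eq_true] at h4
  have h5 := h4 b hb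
  rw [Bool.and_eq_true] at h5
  have e1 : prs.getD i (0, 0) = prs[i] := by
    rw [List.getD_eq_getElem?_getD, List.getElem?_eq_getElem hi]; rfl
  have e2 : prs.getD (i - 1 - b) (0, 0) = prs[i - 1 - b] := by
    rw [List.getD_eq_getElem?_getD, List.getElem?_eq_getElem hi']; rfl
  rw [e1, e2] at h5
  have g1 : sb (R.c (J ⟨i, hi⟩)) (R.c (M ⟨i - 1 - b, hi'⟩)) = true := by
    rw [hJ, hM]; exact h5.1
  have g2 : sb (R.c (J ⟨i - 1 - b, hi'⟩)) (R.c (M ⟨i, hi⟩)) = true := by
    rw [hJ, hM]; exact h5.2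
  rw [R.sb_iff] at g1 g2
  exact hcon _ _ g1 g2 (Fin.ext he)

end Pool.Agent.R578.Dim
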