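import Mathlib
import Pool.Agent.R578.Dim.Hasse

/-! # Products -/

namespace Pool.Agent.R578.Dim

/-- Elements of the doubling. -/
def mkD {L : Type} [PartialOrder L] {a b : L} (x : L) (e : Bool) (h : e = true → a ≤ x ∧ x ≤ b) :
    Doubling L a b := ⟨(x, e), h⟩

theorem CongruenceUniform.bounds {L : Type} [PartialOrder L] (h : CongruenceUniform L) :
    (∃ x : L, ∀ y, x ≤ y) ∧ ∃ x : L, ∀ y, y ≤ x := by
  induction h with
  | one L x h => exact ⟨⟨x, fun y => (h y).ge⟩, ⟨x, fun y => (h y).le⟩⟩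
  | double L a b hab h M e ih =>
    obtain ⟨⟨x, hx⟩, ⟨t, ht⟩⟩ := ih
    constructor
    · refine ⟨e.symm (mkD x false (fun h => by simp at h)), fun y => ?_⟩
      rw [OrderIso.symm_apply_le, dle_iff]
      exact ⟨hx _, fun _ _ => Bool.false_le _⟩
    · by_cases htb : t ≤ b
      · refine ⟨e.symm (mkD t true (fun _ => ⟨hab.trans (ht b), htb⟩)), fun y => ?_⟩
        rw [OrderIso.le_symm_apply, dle_iff]
        exact ⟨ht _, fun _ _ => Bool.le_true _⟩
      · refine ⟨e.symm (mkD t false (fun h => by simp at h)), fun y => ?_⟩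
        rw [OrderIso.le_symm_apply, dle_iff]
        exact ⟨ht _, fun _ h => absurd h htb⟩

theorem CongruenceUniform.of_iso {L : Type} [PartialOrder L] (h : CongruenceUniform L)
    (N : Type) [PartialOrder N] (g : N ≃o L) : CongruenceUniform N := by
  induction h with
  | one L x h =>
    refine CongruenceUniform.one N (g.symm x) (fun y => ?_)
    rw [OrderIso.eq_symm_apply]
    exact h _
  | double L a b hab h M e ih =>
    exact CongruenceUniform.double L a b hab h N (g.trans e)

/-- Doubling commutes with products. -/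
def doublingProd (L M : Type) [PartialOrder L] [PartialOrder M] (a b : L) (bo tp : M)
    (hbo : ∀ y, bo ≤ y) (hto : ∀ y, y ≤ tp) :
    Doubling L a b × M ≃o Doubling (L × M) (a, bo) (b, tp) where
  toFun p := ⟨((p.1.1.1, p.2), p.1.1.2), fun h => ⟨⟨(p.1.2 h).1, hbo _⟩, ⟨(p.1.2 h).2, hto _⟩⟩⟩
  invFun q := (⟨(q.1.1.1, q.1.2), fun h => ⟨(q.2 h).1.1, (q.2 h).2.1⟩⟩, q.1.1.2)
  left_inv p := rfl
  right_inv q := rfl
  map_rel_iff' := by
    intro p q
    simp only [Equiv.coe_fn_mk, Prod.le_def, dle_iff, hbo, hto, and_true]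
    tauto

/-- Product of an isomorphism with an identity. -/
def prodIso {L N : Type} [PartialOrder L] [PartialOrder N] (e : N ≃o L) (M : Type)
    [PartialOrder M] : N × M ≃o L × M where
  toFun p := (e p.1, p.2)
  invFun p := (e.symm p.1, p.2)
  left_inv p := Prod.ext (e.symm_apply_apply _) rfl
  right_inv p := Prod.ext (e.apply_symm_apply _) rfl
  map_rel_iff' := by
    intro p q
    exact ⟨fun h => ⟨(e.le_iff_le).1 h.1, h.2⟩, fun h => ⟨(e.le_iff_le).2 h.1, h.2⟩⟩

theorem CongruenceUniform.prod {L : Type} [PartialOrder L] (h : CongruenceUniform L)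
    (M : Type) [PartialOrder M] (hM : CongruenceUniform M) : CongruenceUniform (L × M) := by
  induction h with
  | one L x h =>
    refine hM.of_iso _ ?_
    exact
      { toFun := fun p => p.2
        invFun := fun m => (x, m)
        left_inv := fun p => Prod.ext (h _).symm rfl
        right_inv := fun m => rfl
        map_rel_iff' := by
          intro p q
          simp only [Equiv.coe_fn_mk, Prod.le_def]
          exact ⟨fun h2 => ⟨by rw [h p.1, h q.1], h2⟩, fun h2 => h2.2⟩ }
  | double L a b hab h N e ih =>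
    obtain ⟨⟨bo, hbo⟩, ⟨tp, hto⟩⟩ := hM.bounds
    refine CongruenceUniform.double (L × M) (a, bo) (b, tp)
      (Prod.mk_le_mk.2 ⟨hab, hbo _⟩) ih _ ?_
    exact (prodIso e M).trans (doublingProd L M a b bo tp hbo hto)

theorem Semidistributive.prod {L M : Type} [Lattice L] [Lattice M] (h : Semidistributive L)
    (h' : Semidistributive M) : Semidistributive (L × M) := by
  constructor
  · intro x y z hxyz
    rw [Prod.ext_iff] at hxyz ⊢
    exact ⟨h.1 _ _ _ hxyz.1, h'.1 _ _ _ hxyz.2⟩
  · intro x y z hxyz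
    rw [Prod.ext_iff] at hxyz ⊢
    exact ⟨h.2 _ _ _ hxyz.1, h'.2 _ _ _ hxyz.2⟩

theorem ncard_up {L M : Type} [PartialOrder L] [PartialOrder M] [Finite L] [Finite M] (p : L × M) :
    {q : L × M | p ⋖ q}.ncard = {x : L | p.1 ⋖ x}.ncard + {y : M | p.2 ⋖ y}.ncard := by
  have h1 : {q : L × M | p ⋖ q} = ((fun x => (x, p.2)) '' {x : L | p.1 ⋖ x}) ∪
      ((fun y => (p.1, y)) '' {y : M | p.2 ⋖ y}) := by
    ext q
    simp only [Set.mem_union, Set.mem_image, Set.mem_ofPred_eq, Prod.covBy_iff]
    constructor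
    · rintro (⟨h, h2⟩ | ⟨h, h2⟩)
      · left; exact ⟨q.1, h, Prod.ext rfl h2⟩
      · right; exact ⟨q.2, h, Prod.ext h2 rfl⟩
    · rintro (⟨x, h, rfl⟩ | ⟨y, h, rfl⟩)
      · left; exact ⟨h, rfl⟩
      · right; exact ⟨h, rfl⟩
  rw [h1, Set.ncard_union_eq, Set.ncard_image_of_injective, Set.ncard_image_of_injective]
  · intro x y h; exact (Prod.ext_iff.1 h).2
  · intro x y h; exact (Prod.ext_iff.1 h).1
  · rw [Set.disjoint_left]
    rintro _ ⟨x, hx, rfl⟩ ⟨y, hy, h⟩
    have : p.1 = x := (Prod.ext_iff.1 h).1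
    rw [← this] at hx
    exact absurd hx.1 (lt_irrefl _)

theorem ncard_down {L M : Type} [PartialOrder L] [PartialOrder M] [Finite L] [Finite M] (p : L × M) :
    {q : L × M | q ⋖ p}.ncard = {x : L | x ⋖ p.1}.ncard + {y : M | y ⋖ p.2}.ncard := by
  have h1 : {q : L × M | q ⋖ p} = ((fun x => (x, p.2)) '' {x : L | x ⋖ p.1}) ∪
      ((fun y => (p.1, y)) '' {y : M | y ⋖ p.2}) := by
    ext q
    simp only [Set.mem_union, Set.mem_image, Set.mem_ofPred_eq, Prod.covBy_iff]
    constructor
    · rintro (⟨h, h2⟩ | ⟨h, h2⟩)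
      · left; exact ⟨q.1, h, Prod.ext rfl h2.symm⟩
      · right; exact ⟨q.2, h, Prod.ext h2.symm rfl⟩
    · rintro (⟨x, h, rfl⟩ | ⟨y, h, rfl⟩)
      · left; exact ⟨h, rfl⟩
      · right; exact ⟨h, rfl⟩
  rw [h1, Set.ncard_union_eq, Set.ncard_image_of_injective, Set.ncard_image_of_injective]
  · intro x y h; exact (Prod.ext_iff.1 h).2
  · intro x y h; exact (Prod.ext_iff.1 h).1
  · rw [Set.disjoint_left]
    rintro _ ⟨x, hx, rfl⟩ ⟨y, hy, h⟩
    have : p.1 = x := (Prod.ext_iff.1 h).1
    rw [← this] at hx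
    exact absurd hx.1 (lt_irrefl _)

theorem HasseRegular.prod {L M : Type} [PartialOrder L] [PartialOrder M] [Finite L] [Finite M]
    {r s : ℕ} (h : HasseRegular L r) (h' : HasseRegular M s) : HasseRegular (L × M) (r + s) := by
  intro p
  rw [ncard_up, ncard_down, ← h p.1, ← h' p.2]
  ring

theorem Ob.prod {L M : Type} [PartialOrder L] [PartialOrder M] {d e : ℕ} (h : Ob L d)
    (h' : Ob M e) (bl tl : L) (hbl : ∀ y, bl ≤ y) (htl : ∀ y, y ≤ tl) (bm tm : M)
    (hbm : ∀ y, bm ≤ y) (htm : ∀ y, y ≤ tm) : Ob (L × M) (d + e) := by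
  obtain ⟨ι, J, N, h1, h2⟩ := h
  obtain ⟨κ, J', N', h1', h2'⟩ := h'
  refine ⟨ι ⊕ κ, Sum.elim (fun i => (J i, bm)) (fun k => (bl, J' k)),
    Sum.elim (fun i => (N i, tm)) (fun k => (tl, N' k)), ?_, ?_⟩
  · rintro (i | k)
    · intro h; exact h1 i h.1
    · intro h; exact h1' k h.2
  · intro n hn f
    classical
    by_contra hcon
    push Not at hcon
    set A : Finset (Fin n) := Finset.univ.filter (fun c => ∃ i, f (Sum.inl i) = c) with hA
    set B : Finset (Fin n) := Finset.univ.filter (fun c => ∃ k, f (Sum.inr k) = c) with hB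
    have hdisj : Disjoint A B := by
      rw [Finset.disjoint_left]
      intro c hc hc'
      rw [hA, Finset.mem_filter] at hc
      rw [hB, Finset.mem_filter] at hc'
      obtain ⟨_, i, hi⟩ := hc
      obtain ⟨_, k, hk⟩ := hc'
      exact hcon (Sum.inl i) (Sum.inr k) ⟨htl _, hbm _⟩ ⟨hbl _, htm _⟩ (hi.trans hk.symm)
    have hcard : A.card + B.card ≤ n := by
      rw [← Finset.card_union_of_disjoint hdisj]
      exact (Finset.card_le_univ _).trans (by simp)
    have : A.card < d ∨ B.card < e := by omega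
    rcases this with h3 | h3
    · obtain ⟨i, j, h4, h5, h6⟩ := h2 A.card h3 (fun i => A.equivFin ⟨f (Sum.inl i), by
        rw [hA, Finset.mem_filter]; exact ⟨Finset.mem_univ _, i, rfl⟩⟩)
      have h7 := A.equivFin.injective h6
      have h8 : f (Sum.inl i) = f (Sum.inl j) := congrArg Subtype.val h7
      exact hcon (Sum.inl i) (Sum.inl j) ⟨h4, hbm _⟩ ⟨h5, hbm _⟩ h8
    · obtain ⟨i, j, h4, h5, h6⟩ := h2' B.card h3 (fun i => B.equivFin ⟨f (Sum.inr i), by
        rw [hB, Finset.mem_filter]; exact ⟨Finset.mem_univ _, i, rfl⟩⟩)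
      have h7 := B.equivFin.injective h6
      have h8 : f (Sum.inr i) = f (Sum.inr j) := congrArg Subtype.val h7
      exact hcon (Sum.inr i) (Sum.inr j) ⟨hbl _, h4⟩ ⟨hbl _, h5⟩ h8

/-- There is an `r`-Hasse-regular example of dimension at least `d`. -/
def G (r d : ℕ) : Prop := ∃ (L : Type) (_ : Lattice L), Finite L ∧ Semidistributive L ∧
  CongruenceUniform L ∧ HasseRegular L r ∧ Ob L d

theorem G.add {r d s e : ℕ} (h : G r d) (h' : G s e) : G (r + s) (d + e) := by
  obtain ⟨L, iL, a1, a2, a3, a4, a5⟩ := h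
  obtain ⟨M, iM, b1, b2, b3, b4, b5⟩ := h'
  obtain ⟨⟨bl, hbl⟩, ⟨tl, htl⟩⟩ := a3.bounds
  obtain ⟨⟨bm, hbm⟩, ⟨tm, htm⟩⟩ := b3.bounds
  exact ⟨L × M, inferInstance, inferInstance, a2.prod b2, a3.prod M b3, a4.prod b4,
    a5.prod b5 bl tl hbl htl bm tm hbm htm⟩

theorem G_zero : G 0 0 := by
  refine ⟨PUnit, inferInstance, inferInstance,
    ⟨fun _ _ _ _ => Subsingleton.elim _ _, fun _ _ _ _ => Subsingleton.elim _ _⟩,
    CongruenceUniform.one PUnit PUnit.unit (fun _ => Subsingleton.elim _ _), ?_, ?_⟩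
  · intro x
    have h1 : {y : PUnit | y ⋖ x} = ∅ := by
      ext y; simp only [Set.mem_ofPred_eq, Set.mem_empty_iff_false, iff_false]
      intro h; exact absurd h.1 (by rw [Subsingleton.elim y x]; exact lt_irrefl _)
    have h2 : {y : PUnit | x ⋖ y} = ∅ := by
      ext y; simp only [Set.mem_ofPred_eq, Set.mem_empty_iff_false, iff_false]
      intro h; exact absurd h.1 (by rw [Subsingleton.elim y x]; exact lt_irrefl _)
    simp only [h1, h2, Set.ncard_empty]
  · exact ⟨PEmpty, fun i => i.elim, fun i => i.elim, fun i => i.elim, fun n hn => by omega⟩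

theorem G_one : G 1 1 := by
  refine ⟨Bool, inferInstance, inferInstance, ⟨by decide, by decide⟩, ?_, ?_, ?_⟩
  · refine CongruenceUniform.double PUnit PUnit.unit PUnit.unit le_rfl
      (CongruenceUniform.one PUnit PUnit.unit (fun _ => Subsingleton.elim _ _)) Bool ?_
    exact
      { toFun := fun b => ⟨(PUnit.unit, b), fun _ => ⟨le_rfl, le_rfl⟩⟩
        invFun := fun p => p.1.2
        left_inv := fun _ => rfl
        right_inv := fun _ => rfl
        map_rel_iff' := by
          intro p q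
          exact ⟨fun h => h.2 le_rfl le_rfl, fun h => ⟨le_rfl, fun _ _ => h⟩⟩ }
  · intro x
    cases x
    · have h1 : {y : Bool | y ⋖ false} = ∅ := by
        ext y; simp only [Set.mem_ofPred_eq, Set.mem_empty_iff_false, iff_false]
        intro h; exact absurd h.1 (by cases y <;> decide)
      have h2 : {y : Bool | false ⋖ y} = {true} := by
        ext y; simp only [Set.mem_ofPred_eq, Set.mem_singleton_iff]
        cases y
        · simp
        · simp only [iff_true]
          exact ⟨by decide, fun c h1 h2 => by cases c <;> simp_all⟩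
      rw [h1, h2]; simp
    · have h1 : {y : Bool | true ⋖ y} = ∅ := by
        ext y; simp only [Set.mem_ofPred_eq, Set.mem_empty_iff_false, iff_false]
        intro h; exact absurd h.1 (by cases y <;> decide)
      have h2 : {y : Bool | y ⋖ true} = {false} := by
        ext y; simp only [Set.mem_ofPred_eq, Set.mem_singleton_iff]
        cases y
        · simp only [iff_true]
          exact ⟨by decide, fun c h1 h2 => by cases c <;> simp_all⟩
        · simp
      rw [h1, h2]; simp
  · refine ⟨Unit, fun _ => true, fun _ => false, fun _ h => absurd h (by decide : ¬ true ≤ false), fun n hn f => ?_⟩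
    have : n = 0 := by omega
    subst this
    exact (f ()).elim0

end Pool.Agent.R578.Dim
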