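import Mathlib
import Pool.Agent.R578.Dim.Prod
import Pool.Agent.R578.Dim.Data

/-! # The rank four example -/

namespace Pool.Agent.R578.Dim

theorem col_check : noCol (List.range 4) back [] = true := by decide +kernel

theorem tbl_check : (tbl.all fun t => okRow elems 4 t) = true := by decide +kernel

theorem tbl_elems : tbl.map (fun t => t.1) = elems := by decide +kernel

theorem pairs_check : okPairs elems prs = true := by decide +kernel

theorem conf_check : okConf prs back = true := by decide +kernel

theorem len_check : back.length = prs.length := by decide +kernel

/-- The 343-element lattice: Hasse-regular of degree 4, dimension at least 5. -/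
theorem G_four : G 4 5 := by
  obtain ⟨M, iM, h1, h2, h3, ⟨R⟩⟩ := run_start steps elems run_steps
  exact ⟨M, iM, h3, h1, h2, hasseRegular_of_table R 4 tbl tbl_check tbl_elems,
    ob_of_check R 4 prs back len_check pairs_check conf_check col_check⟩

theorem G_mul_four (m : ℕ) : G (4 * m) (5 * m) := by
  induction m with
  | zero => exact G_zero
  | succ m ih => exact ih.add G_four

theorem G_bool (m s : ℕ) : G (4 * m + s) (5 * m + s) := by
  induction s with
  | zero => exact G_mul_four m
  | succ s ih => exact ih.add G_one

theorem G_all (r : ℕ) : G r (r + r / 4) := by
  have h := G_bool (r / 4) (r % 4)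
  have e1 : 4 * (r / 4) + r % 4 = r := Nat.div_add_mod r 4
  have e2 : 5 * (r / 4) + r % 4 = r + r / 4 := by omega
  rwa [e1, e2] at h

end Pool.Agent.R578.Dim
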